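import Pool.Agent.J4H25.NPP.Stm

set_option autoImplicit false

/-!
Project NPP of helper25, job LOC: the events depend only on short strings.
-/

namespace Pool.Agent.J4H98.NPP

open MeasureTheory Filter Pool.Agent.NPC Pool.Agent.H628R3.RO Pool.Agent.J4H63.ESY Pool.Agent.J4H45.OPT
open Pool.Agent.J4H45.EXP (T wds le_T T_strictMono two_pow_T_lt)
open Pool.Agent.J4H25.NPP

theorem size_self_le (n : ℕ) : n.size ≤ n := Nat.size_le.2 Nat.lt_two_pow_self

theorem ax_le (m : ℕ) : ax m ≤ m + 8 := by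
  have h1 : ((m + 1) ^ 3).size ≤ 3 * (m + 1) := by
    refine Nat.size_le.2 ?_
    calc (m + 1) ^ 3 < (2 ^ (m + 1)) ^ 3 := Nat.pow_lt_pow_left Nat.lt_two_pow_self (by norm_num)
      _ = 2 ^ (3 * (m + 1)) := by rw [← pow_mul]; congr 1; ring
  unfold ax
  omega

theorem plant_congr {J : Finset (List Bool)} {A A' : Oracle} {N : ℕ}
    (hA : ∀ x : List Bool, x.length ≤ N → A x = A' x) :
    ∀ x : List Bool, x.length ≤ N → plant J A x = plant J A' x := by
  intro x hx
  unfold plant
  rw [hA x hx]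

/-- sizes of polynomials -/
theorem size_poly (K : ℕ) (b : Polynomial ℕ) : ∃ N, ∀ n ≥ N, ∀ x ≤ b.eval n, K * x.size ≤ n := by
  obtain ⟨N2, h2⟩ := eventually_atTop.1 (H529R3.Lev.poly_le_two_pow
    (Polynomial.C (2 * K * (b.eval 1 + 1)) + Polynomial.C (2 * K * b.natDegree) * Polynomial.X))
  refine ⟨2 ^ N2, fun n hn x hx => ?_⟩
  have h1 := eval_le_pow b n n.size (Nat.lt_size_self _).le
  have h3 : x.size ≤ b.eval 1 + b.natDegree * n.size + 1 := by
    refine Nat.size_le.2 ?_
    calc x ≤ 2 ^ (b.eval 1 + b.natDegree * n.size) := hx.trans h1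
      _ < 2 ^ (b.eval 1 + b.natDegree * n.size + 1) :=
        Nat.pow_lt_pow_right (by norm_num) (by omega)
  have h4 : N2 < n.size := Nat.lt_size.2 hn
  have h5 := h2 n.size h4.le
  simp only [Polynomial.eval_add, Polynomial.eval_mul, Polynomial.eval_C, Polynomial.eval_X] at h5
  have h6 : 2 ^ n.size ≤ 2 * n := by
    obtain ⟨s, hs⟩ : ∃ s, n.size = s + 1 := ⟨n.size - 1, by omega⟩
    have h7 : 2 ^ s ≤ n := Nat.lt_size.1 (by omega)
    rw [hs, pow_succ]
    omega
  have h8 : K * x.size ≤ K * (b.eval 1 + b.natDegree * n.size + 1) := Nat.mul_le_mul_left _ h3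
  have h9 : 2 * (K * (b.eval 1 + b.natDegree * n.size + 1)) =
      2 * K * (b.eval 1 + 1) + 2 * K * b.natDegree * n.size := by ring
  omega

section

variable {O : Oracle → Oracle} (E : Emb2 O) {M : ℕ → Alg} {p : ℕ → Polynomial ℕ} {K i0 : ℕ}
  (ok : Ok M p K i0)

include E ok

theorem mem_congr {i : ℕ} (hi : i0 ≤ i) {q : List Bool} (hq : K * q.length.size ≤ T i) {c : ℕ}
    (hc : c < 2) {A A' : Oracle} (hA : ∀ x : List Bool, x.length ≤ 2 ^ T i → A x = A' x) :
    Mem (M c) (p c) (O A) q ↔ Mem (M c) (p c) (O A') q := by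
  unfold Mem
  refine exists_congr fun u => and_congr_right fun hu => ?_
  rw [ok.congr i hi q hq c hc u hu (O A) (O A')
    fun x hx => E.loc x A A' (hA _ ((E.len x).trans hx))]

theorem loc_Er {i : ℕ} (hi : i0 ≤ i) : Loc {x | x.length ≤ 2 ^ T i} (Er O M p K i) := by
  intro A A' hA
  refine exists_congr fun q => and_congr_right fun hq => ?_
  exact and_congr (mem_congr E ok hi hq (by norm_num) hA) (mem_congr E ok hi hq (by norm_num) hA)

theorem good_congr {i : ℕ} (hi : i0 ≤ i) {q : List Bool} (hq : K * q.length.size ≤ T i) {c : ℕ}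
    (hc : c < 2) (n m : ℕ) {A A' : Oracle}
    (hA : ∀ x : List Bool, x.length ≤ 2 ^ T i → A x = A' x) :
    good O M p A c n m q = good O M p A' c n m q := by
  classical
  unfold good
  exact Finset.filter_congr fun w _ => mem_congr E ok hi hq hc (plant_congr hA)

theorem cap_congr {i l : ℕ} (hi : i0 ≤ i) {A A' : Oracle}
    (hA : ∀ x : List Bool, x.length ≤ 2 ^ T i → A x = A' x) :
    A ∈ Cap O M p K i l ↔ A' ∈ Cap O M p K i l := by
  refine exists_congr fun q => and_congr_right fun hq => ?_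
  rw [good_congr E ok hi hq (by norm_num : 0 < 2) _ _ hA,
    good_congr E ok hi hq (by norm_num : 1 < 2) _ _ hA]

theorem lv_congr {A A' : Oracle} : ∀ {i : ℕ},
    (∀ x : List Bool, x.length ≤ T i → A x = A' x) →
    lv O M p K i0 A i = lv O M p K i0 A' i := by
  intro i
  induction i with
  | zero => intro _; rfl
  | succ i ih =>
    intro hA
    have h1 := two_pow_T_lt i
    have h0 : T i < 2 ^ T i := Nat.lt_two_pow_self
    rw [lv, lv, ih fun x hx => hA x (by omega)]
    by_cases hi : i < i0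
    · rw [if_pos hi, if_pos hi]
    · rw [if_neg hi, if_neg hi]
      have h2 : A ∈ Cap O M p K i (lv O M p K i0 A' i) ↔ A' ∈ Cap O M p K i (lv O M p K i0 A' i) :=
        cap_congr (l := lv O M p K i0 A' i) E ok (i := i) (by omega)
          (fun x hx => hA x (by omega))
      by_cases h3 : A' ∈ Cap O M p K i (lv O M p K i0 A' i)
      · rw [if_pos h3, if_pos (h2.2 h3)]
      · rw [if_neg h3, if_neg (fun h => h3 (h2.1 h))]

omit E in
theorem loc_Hev {i : ℕ} (hi : i0 ≤ i) {l : ℕ} (hl : l ≤ i) {c : ℕ} (hc : c < 2) :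
    Loc {x | T i < x.length ∧ x.length ≤ 2 ^ T i} (Hev c i l) := by
  intro A A' hA
  refine exists_congr fun w => and_congr_right fun hw => ?_
  refine forall₂_congr fun b hb => ?_
  have h1 := ok.spots i hi
  have h2 := ax_le l
  have h3 := le_T i
  rw [hA (pos c b w) ?_]
  change T i < (pos c b w).length ∧ (pos c b w).length ≤ 2 ^ T i
  rw [length_pos]
  constructor <;> omega

theorem loc_Fl (MF : Alg) : ∃ i1 ≥ i0, ∀ i ≥ i1, ∀ l ≤ i,
    Loc {x | x.length ≤ 2 ^ T i} (Fl O M p MF i l) := by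
  obtain ⟨qb, hq⟩ := MF.out_congr
  obtain ⟨b, hb⟩ := MF.out_length
  obtain ⟨N1, h1⟩ := eventually_atTop.1 (H529R3.Lev.poly_le_two_pow qb)
  obtain ⟨N2, h2⟩ := size_poly K b
  refine ⟨i0 + N1 + N2, by omega, fun i hi l hl A A' hA => ?_⟩
  have h3 := le_T i
  have h4 : qb.eval (T i) ≤ 2 ^ T i := h1 (T i) (by omega)
  have e1 : MF.out (O A) (List.replicate (T i) false) =
      MF.out (O A') (List.replicate (T i) false) := by
    refine hq (O A) (O A') _ (T i) (by rw [List.length_replicate]) fun x hx => ?_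
    exact E.loc x A A' (hA _ ((E.len x).trans (hx.trans h4)))
  have e2 : qF O MF A i = qF O MF A' i := by
    unfold qF
    rw [e1]
  have e3 : (qF O MF A' i).length ≤ b.eval (T i) := by
    unfold qF
    rcases h : MF.out (O A') (List.replicate (T i) false) with _ | z
    · simp
    · have := hb _ _ _ h
      rw [List.length_replicate] at this
      simpa using this
  have e4 : K * (qF O MF A' i).length.size ≤ T i := h2 (T i) (by omega) _ e3
  refine exists_congr fun c => and_congr_right fun hc => ?_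
  rw [e2]
  refine and_congr (loc_Hev ok (by omega) hl hc A A' fun x hx => hA x hx.2) (not_congr ?_)
  exact mem_congr E ok (by omega) e4 hc hA

end

theorem t_LOC : S_LOC := by
  intro O E M p K i0 ok
  refine ⟨fun i hi => loc_Er E ok hi, fun i hi l A A' hA => cap_congr E ok hi hA,
    fun i l A A' hA => ?_, fun i hi l hl c hc => loc_Hev ok hi hl hc, fun MF => loc_Fl E ok MF⟩
  simp only [Set.mem_ofPred_eq]
  rw [lv_congr E ok fun x hx => hA x hx]

end Pool.Agent.J4H98.NPP
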