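import Pool.Agent.J4H25.NPP.Stm

set_option autoImplicit false

/-!
Project NPP of helper25, job OK: the constants.
-/

namespace Pool.Agent.J4H98.NPP

open MeasureTheory Filter Pool.Agent.NPC Pool.Agent.H628R3.RO Pool.Agent.J4H63.ESY Pool.Agent.J4H45.OPT
open Pool.Agent.J4H45.EXP (T le_T)
open Pool.Agent.J4H25.NPP

theorem t_OK : S_OK := by
  intro M p
  have hex : ∀ c : ℕ, ∃ qb : Polynomial ℕ, ∀ (A A' : Oracle) (u : List Bool) (N : ℕ),
      u.length ≤ N → (∀ x : List Bool, x.length ≤ qb.eval N → A x = A' x) →
      (M c).out A u = (M c).out A' u := fun c => (M c).out_congr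
  choose qb hq using hex
  -- the length of the input of the verifier
  set L : ℕ → Polynomial ℕ := fun c => Polynomial.C 2 * Polynomial.X + Polynomial.C 1 + p c with hL
  set R : ℕ → Polynomial ℕ := fun c => p c + (Polynomial.C 32 * (qb c + (M c).p)).comp (L c) with hR
  set P : Polynomial ℕ := R 0 + R 1 with hP
  set a := P.eval 1 with ha
  set d := P.natDegree with hd
  obtain ⟨N2, h2⟩ := eventually_atTop.1
    (H529R3.Lev.poly_le_two_pow (Polynomial.C 5 * Polynomial.X + Polynomial.C 20))
  have key : ∀ i ≥ 2 * a + 2 + N2, ∀ q : List Bool, (2 * d + 2) * q.length.size ≤ T i →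
      P.eval q.length ≤ 2 ^ T i := by
    intro i hi y hy
    have h1 := eval_le_pow P y.length y.length.size (Nat.lt_size_self _).le
    rw [← ha, ← hd] at h1
    have h3 := le_T i
    have h4 : a + d * y.length.size ≤ T i := by nlinarith
    exact h1.trans (Nat.pow_le_pow_right (by norm_num) h4)
  have keyR : ∀ i ≥ 2 * a + 2 + N2, ∀ q : List Bool, (2 * d + 2) * q.length.size ≤ T i →
      ∀ c < 2, (p c).eval q.length + 32 * ((qb c).eval ((L c).eval q.length) +
        (M c).p.eval ((L c).eval q.length)) ≤ 2 ^ T i := by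
    intro i hi q hq' c hc
    have h1 := key i hi q hq'
    rw [hP, Polynomial.eval_add] at h1
    have h3 : (R c).eval q.length = (p c).eval q.length + 32 * ((qb c).eval ((L c).eval q.length) +
        (M c).p.eval ((L c).eval q.length)) := by
      rw [hR]
      simp only [Polynomial.eval_add, Polynomial.eval_comp, Polynomial.eval_mul, Polynomial.eval_C]
    rw [← h3]
    rcases (show c = 0 ∨ c = 1 by omega) with rfl | rfl <;> omega
  have hlen : ∀ c, ∀ q u : List Bool, u.length ≤ (p c).eval q.length →
      (pairBits q u).length ≤ (L c).eval q.length := by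
    intro c q u hu
    rw [length_pairBits, hL]
    simp only [Polynomial.eval_add, Polynomial.eval_mul, Polynomial.eval_C, Polynomial.eval_X]
    omega
  refine ⟨2 * d + 2, 2 * a + 2 + N2, ⟨by omega, ?_, ?_, ?_, ?_⟩⟩
  · intro i hi q hq' c hc
    have := keyR i hi q hq' c hc
    omega
  · intro i hi q hq' c hc u hu
    have h1 := keyR i hi q hq' c hc
    have h3 := eval_mono (M c).p (hlen c q u hu)
    omega
  · intro i hi q hq' c hc u hu B B' hB
    refine hq c B B' _ ((L c).eval q.length) (hlen c q u hu) fun x hx => hB x ?_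
    have h1 := keyR i hi q hq' c hc
    omega
  · intro i hi
    have h3 := le_T i
    have h4 := h2 (T i) (by omega)
    simpa only [Polynomial.eval_add, Polynomial.eval_mul, Polynomial.eval_C,
      Polynomial.eval_X] using h4

end Pool.Agent.J4H98.NPP
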