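import Pool.Agent.J4H25.NPP.Stm

set_option autoImplicit false

/-!
Project NPP of helper25, job PL: planting.
-/

namespace Pool.Agent.J4H98.NPP

open MeasureTheory Filter Pool.Agent.NPC Pool.Agent.H628R3.RO Pool.Agent.J4H63.ESY Pool.Agent.J4H45.OPT
open Pool.Agent.J4H25.NPP

theorem t_PL : S_PL := by
  intro ι I J c m S S' hS' hc h
  classical
  set W : ι → Set Oracle := fun t => S' ∩ {A | ∀ x ∈ J t, A x = true} with hW
  have hWm : ∀ t, MeasurableSet (W t) := by
    intro t
    refine hS'.inter ?_
    have h1 : {A : Oracle | ∀ x ∈ J t, A x = true} = ⋂ x ∈ J t, {A : Oracle | A x = true} := by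
      ext A; simp
    rw [h1]
    refine Finset.measurableSet_biInter _ fun x _ => ?_
    exact (measurable_pi_apply (X := fun _ : List Bool => Bool) x) (measurableSet_singleton true)
  set V : ι → Set Oracle := fun t => ovr (J t) (fun _ => true) ⁻¹' (W t) with hV
  have hVm : ∀ t, MeasurableSet (V t) := fun t => measurable_ovr _ _ (hWm t)
  set f : Oracle → ENNReal := fun A => ∑ i ∈ I, (V i).indicator (fun _ => (1 : ENNReal)) A with hf
  have hfm : Measurable f := Finset.measurable_sum _ fun i _ =>
    (measurable_const.indicator (hVm i))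
  have h1 : S ⊆ {A | (m : ENNReal) ≤ f A} := by
    intro A hA
    obtain ⟨I', hI', hm, hI⟩ := h A hA
    change (m : ENNReal) ≤ f A
    calc (m : ENNReal) ≤ (I'.card : ENNReal) := by exact_mod_cast hm
      _ = ∑ i ∈ I', (1 : ENNReal) := by simp
      _ = ∑ i ∈ I', (V i).indicator (fun _ => (1 : ENNReal)) A := by
          refine Finset.sum_congr rfl fun i hi => ?_
          rw [Set.indicator_of_mem]
          refine ⟨hI i hi, fun x hx => ?_⟩
          exact ovr_of_mem hx
      _ ≤ ∑ i ∈ I, (V i).indicator (fun _ => (1 : ENNReal)) A :=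
          Finset.sum_le_sum_of_subset hI'
  have h2 : ∫⁻ A, f A ∂randomOracle = ∑ i ∈ I, randomOracle (V i) := by
    rw [hf, lintegral_finsetSum' _ fun i _ =>
      (measurable_const.indicator (hVm i)).aemeasurable]
    refine Finset.sum_congr rfl fun i _ => ?_
    rw [lintegral_indicator_const (hVm i), one_mul]
  calc (m : ENNReal) * randomOracle S ≤ (m : ENNReal) * randomOracle {A | (m : ENNReal) ≤ f A} := by
        gcongr
    _ ≤ ∫⁻ A, f A ∂randomOracle := mul_meas_ge_le_lintegral hfm _
    _ = ∑ i ∈ I, randomOracle (V i) := h2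
    _ ≤ ∑ i ∈ I, 2 ^ c * randomOracle (W i) := by
        refine Finset.sum_le_sum fun i hi => ?_
        refine (measure_ovr_le _ _ (hWm i)).trans ?_
        gcongr
        · norm_num
        · exact hc i hi
    _ = 2 ^ c * ∑ i ∈ I, randomOracle (W i) := by rw [Finset.mul_sum]

end Pool.Agent.J4H98.NPP
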